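import Pool.Agent.helper69.SN.SpecA

/-! Row sn:aCNT: joint continuity of `dPh` and `Ph`. -/

open scoped Pointwise ContDiff
open MeasureTheory Set Filter Topology

set_option linter.unusedVariables false

namespace Pool.Agent.helper69.SN

open Pool.Agent.helper83.SC

/-- The mixed discriminant is continuous. -/
theorem aCNT_mD (m : ℕ) : Continuous (fun M : Fin m → Mat m => mD M) := by
  unfold mD
  refine continuous_const.mul ?_
  refine continuous_finsetSum _ fun σ _ => ?_
  refine Continuous.matrix_det ?_
  refine continuous_matrix fun i j => ?_
  show Continuous (fun M : Fin m → Mat m => M (σ i) i j)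
  exact ((continuous_apply (σ i)).matrix_elem i j)

/-- Row aCNT. -/
theorem aCNT : aCNT_stmt := by
  intro m n r
  constructor
  · unfold dPh
    refine continuous_finsetSum _ fun T _ => ?_
    refine continuous_const.mul ?_
    refine (aCNT_mD m).comp ?_
    refine continuous_pi fun j => ?_
    unfold slotA
    by_cases h : (j : ℕ) < T.card
    · simp only [h, dif_pos]
      exact (continuous_apply _).comp continuous_fst
    · simp only [h, dif_neg, not_false_eq_true]
      by_cases h2 : (j : ℕ) < T.card + r
      · simp only [h2, if_true]
        exact continuous_fst.comp continuous_snd
      · simp only [h2, if_false]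
        exact continuous_snd.comp continuous_snd
  · unfold Ph
    refine continuous_finsetSum _ fun T _ => ?_
    refine continuous_const.mul ?_
    refine (aCNT_mD m).comp ?_
    refine continuous_pi fun j => ?_
    unfold slot
    by_cases h : (j : ℕ) < T.card
    · simp only [h, dif_pos]
      exact (continuous_apply _).comp continuous_fst
    · simp only [h, dif_neg, not_false_eq_true]
      exact continuous_snd

end Pool.Agent.helper69.SN
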