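import Pool.Agent.helper40.SN.SpecD
import Pool.Agent.helper53.SC.HS1

/-! Row sn:dBAS: the base of the capacity induction. -/

open scoped Pointwise ContDiff
open MeasureTheory Set Filter Topology Pool.Agent.helper83.SC Pool.Agent.helper69.SN

set_option linter.unusedVariables false

namespace Pool.Agent.helper40.SN

theorem dBAS_wt_nonneg {n : ℕ} (T : Finset (Fin n)) {K : ℝ} (hK : 0 ≤ K) (i : Fin n) :
    0 ≤ wt T K ∅ 0 i := by
  unfold wt
  split_ifs <;> first | exact hK | exact le_rfl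

theorem dBAS_psd {m n : ℕ} (a : Fin n → E m → ℝ) (ha : ∀ i, SmC (a i)) (lam : Fin n → ℝ)
    (hlam : ∀ i, 0 ≤ lam i) (x : E m) : Psd (hs a lam x) := by
  intro i
  exact (hess_psd_of (ha i).1 (ha i).2 x).smul (hlam i)

/-- Row dBAS. -/
theorem dBAS (hLIM : Pool.Agent.helper28.SN.cLIM_stmt) (hDNN : aDNN_stmt)
    (hCNT : Pool.Agent.helper28.SN.cCNT_stmt) : dBAS_stmt := by
  intro m n S T j D h r hjT hTD hCV hproj
  refine ⟨1 / 2, by norm_num, by norm_num, fun L τ hL hτ => ?_⟩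
  by_contra hcon
  push Not at hcon
  choose K hK hbad using fun N : ℕ => hcon (N : ℝ)
  have hbad' : ∀ N l : ℕ, ∃ a : Fin n → E m → ℝ, Near h (1 / ((l : ℝ) + 1)) l a ∧
      ∃ X : E m → ℝ, InCl T (K N) a X ∧ (∀ x, ‖x‖ ≤ 1 → |X x| ≤ L) ∧
      τ * K N ^ T.card < sm T (K N) j a {x | ‖x‖ ≤ 1 / 2 ∧ wf S D r a x < 1} X := by
    intro N l
    exact hbad N 1 (1 / ((l : ℝ) + 1)) l one_pos (by positivity)
  choose a hnear X hcl hXL hgt using hbad'
  have htend : ∀ i x, Tendsto (fun l : ℕ => a (Nat.unpair l).1 l i x) atTop (𝓝 (h i x)) := by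
    intro i x
    rw [tendsto_iff_dist_tendsto_zero]
    have h0 : Tendsto (fun l : ℕ => 1 / ((l : ℝ) + 1)) atTop (𝓝 0) :=
      tendsto_one_div_add_atTop_nhds_zero_nat
    refine squeeze_zero' (Eventually.of_forall fun l => dist_nonneg) ?_ h0
    obtain ⟨N, hN⟩ := exists_nat_ge ‖x‖
    filter_upwards [eventually_ge_atTop N] with l hl
    rw [Real.dist_eq]
    refine (hnear (Nat.unpair l).1 l).2 i x (hN.trans ?_)
    exact_mod_cast hl
  obtain ⟨K₀, hK₀1, hK₀⟩ := hLIM D h (fun l => a (Nat.unpair l).1 l) T j (1 / 2) L (by norm_num)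
    (by linarith) hCV (fun i x => (hproj i x).symm) (fun l i => (hnear (Nat.unpair l).1 l).1 i)
    htend (by omega) τ hτ
  obtain ⟨N, hN⟩ := exists_nat_ge K₀
  have hKN : K₀ ≤ K N := hN.trans (hK N)
  have hKpos : 0 < K N := by linarith
  obtain ⟨l₀, hl₀⟩ := eventually_atTop.1 (hK₀ (K N) hKN)
  set l := Nat.pair N l₀ with hl
  have hu : (Nat.unpair l).1 = N := by rw [hl, Nat.unpair_pair]
  have h1 := hl₀ l (Nat.right_le_pair N l₀)
  simp only [hu] at h1
  have h2 := h1 (X N l) (hcl N l).1 (fun x hx => hXL N l x (by linarith))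
    (fun x hx => (hcl N l).2 x (by linarith))
  have hpow : 0 < K N ^ T.card := pow_pos hKpos _
  rw [inv_mul_le_iff₀ hpow, mul_comm] at h2
  have h3 : sm T (K N) j (a N l) {x | ‖x‖ ≤ 1 / 2 ∧ wf S D r (a N l) x < 1} (X N l)
      ≤ ∫ x in Metric.closedBall 0 (1 / 2), dPh (hs (a N l) (wt T (K N) ∅ 0) x) 2
        (hess (a N l j) x) (hess (X N l) x) := by
    unfold sm
    have hc : Continuous fun x => dPh (hs (a N l) (wt T (K N) ∅ 0) x) 2
        (hess (a N l j) x) (hess (X N l) x) :=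
      hCNT (a N l) (wt T (K N) ∅ 0) (a N l j) (X N l) 2 (fun i => ((hnear N l).1 i).1)
        ((hnear N l).1 j).1 (hcl N l).1
    refine setIntegral_mono_set
      (hc.continuousOn.integrableOn_compact (isCompact_closedBall _ _)) ?_ ?_
    · rw [EventuallyLE, ae_restrict_iff' Metric.isClosed_closedBall.measurableSet]
      refine Eventually.of_forall fun x hx => ?_
      have hx' : ‖x‖ ≤ 1 / 2 := by simpa using hx
      exact (hDNN (hs (a N l) (wt T (K N) ∅ 0) x)
        (dBAS_psd (a N l) (hnear N l).1 _ (dBAS_wt_nonneg T hKpos.le) x) (hess (a N l j) x)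
        (hess (X N l) x) (hess_psd_of ((hnear N l).1 j).1 ((hnear N l).1 j).2 x)
        ((hcl N l).2 x (by linarith))).1 2
    · refine HasSubset.Subset.eventuallyLE ?_
      intro x hx
      simpa using hx.1
  have h4 := hgt N l
  linarith

end Pool.Agent.helper40.SN
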